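import Pool.Agent.helper52.FS.SpecE

/-!
# Row fs:VIS (MP_07c750): few visits
-/

set_option autoImplicit false

open scoped MatrixGroups ContDiff Topology UpperHalfPlane ComplexConjugate
open UpperHalfPlane MeasureTheory Filter Set

namespace Pool.Agent.FS

open Pool.Agent.RS
open Pool.Agent.EN (XG MG mkX mkM fl pr)

/-- disjoint intervals in a set of finite measure -/
lemma VIS_class (S : Set ℝ) (hS : volume S ≠ ⊤) (δ0 : ℝ) (hδ1 : δ0 ≤ 1) (D : Finset ℕ) (t : ℕ → ℝ)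
    (ht : ∀ i ∈ D, |t i - i| ≤ 4) (hsub : ∀ i ∈ D, Ioo (t i - δ0) (t i + δ0) ⊆ S)
    (hsep : ∀ i ∈ D, ∀ j ∈ D, i ≠ j → (10 : ℝ) ≤ |(i : ℝ) - j|) :
    (D.card : ℝ) * (2 * δ0) ≤ volume.real S := by
  have h1 : volume (⋃ i ∈ D, Ioo (t i - δ0) (t i + δ0)) = ∑ i ∈ D, volume (Ioo (t i - δ0) (t i + δ0)) := by
    refine measure_biUnion_finset ?_ (fun i _ => measurableSet_Ioo)
    intro i hi j hj hij
    refine Set.disjoint_left.2 ?_
    rintro a ⟨ha1, ha2⟩ ⟨hb1, hb2⟩
    have h := hsep i hi j hj hij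
    have h2 := abs_le.1 (ht i hi)
    have h3 := abs_le.1 (ht j hj)
    rcases le_abs.1 h with h4 | h4
    · linarith [h2.1, h2.2, h3.1, h3.2]
    · linarith [h2.1, h2.2, h3.1, h3.2]
  have h2 : volume (⋃ i ∈ D, Ioo (t i - δ0) (t i + δ0)) ≤ volume S := measure_mono (Set.iUnion₂_subset hsub)
  have h3 : ∑ i ∈ D, volume (Ioo (t i - δ0) (t i + δ0)) = ENNReal.ofReal ((D.card : ℝ) * (2 * δ0)) := by
    have h4 : ∀ i ∈ D, volume (Ioo (t i - δ0) (t i + δ0)) = ENNReal.ofReal (2 * δ0) := by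
      intro i _
      rw [Real.volume_Ioo]
      exact congrArg ENNReal.ofReal (by ring)
    rw [Finset.sum_congr rfl h4, Finset.sum_const, nsmul_eq_mul, ENNReal.ofReal_mul (Nat.cast_nonneg _),
      ENNReal.ofReal_natCast]
  rw [h1, h3] at h2
  exact (ENNReal.ofReal_le_iff_le_toReal hS).1 h2

theorem VIS_proof (hXFL : EN.XFL_stmt) : VIS_stmt := by
  intro Γ O hO hne
  obtain ⟨x1, hx1⟩ := hne
  have hfl := (hXFL Γ).1
  have hU : IsOpen ((fun q : ℝ × XG Γ => fl Γ q.1 q.2) ⁻¹' O) := hO.preimage hfl.cont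
  have hmem : ((0 : ℝ), x1) ∈ (fun q : ℝ × XG Γ => fl Γ q.1 q.2) ⁻¹' O := by
    show fl Γ 0 x1 ∈ O
    rw [hfl.zero]
    exact hx1
  obtain ⟨u, v, hu, hv, h0u, hx1v, huv⟩ := isOpen_prod_iff.1 hU 0 x1 hmem
  obtain ⟨ε, hε, hball⟩ := Metric.isOpen_iff.1 hu 0 h0u
  have hδ0 : 0 < min (ε / 2) 1 := lt_min (by linarith) one_pos
  refine ⟨v, min (ε / 2) 1, hv, ⟨x1, hx1v⟩, hδ0, min_le_right _ _, ?_⟩
  set δ0 : ℝ := min (ε / 2) 1 with hδdef
  have hδ1 : δ0 ≤ 1 := min_le_right _ _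
  have hδε : δ0 ≤ ε / 2 := min_le_left _ _
  intro x n D hD
  have hstay : ∀ (y : XG Γ) (s : ℝ), y ∈ v → |s| < δ0 → fl Γ s y ∈ O := by
    intro y s hy hs
    have hsu : s ∈ u := hball (by
      rw [Metric.mem_ball, Real.dist_eq, sub_zero]
      linarith)
    exact huv (Set.mk_mem_prod hsu hy)
  choose! s hs using fun i (hi : i ∈ D) => (hD i hi).2
  set S : Set ℝ := {t : ℝ | t ∈ Icc (0 : ℝ) (n + 5) ∧ fl Γ t x ∈ O} with hSdef
  have hSfin : volume S ≠ ⊤ := by
    refine ne_top_of_le_ne_top ?_ (measure_mono (fun t ht => ht.1 : S ⊆ Icc (0 : ℝ) (n + 5)))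
    rw [Real.volume_Icc]
    exact ENNReal.ofReal_ne_top
  have hsub : ∀ i ∈ D, 5 ≤ i → Ioo ((i : ℝ) + s i - δ0) ((i : ℝ) + s i + δ0) ⊆ S := by
    intro i hi h5 τ hτ
    have h1 := abs_le.1 (hs i hi).1
    have h5' : (5 : ℝ) ≤ i := by exact_mod_cast h5
    have hin : (i : ℝ) + 1 ≤ n := by exact_mod_cast (hD i hi).1
    refine ⟨⟨by linarith [hτ.1, h1.1], by linarith [hτ.2, h1.2]⟩, ?_⟩
    have h2 : fl Γ τ x = fl Γ (τ - (i + s i)) (fl Γ (i + s i) x) := by
      rw [← hfl.add, sub_add_cancel]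
    rw [h2]
    refine hstay _ _ (hs i hi).2 ?_
    rw [abs_lt]
    exact ⟨by linarith [hτ.1], by linarith [hτ.2]⟩
  have hV : 0 ≤ volume.real S := measureReal_nonneg
  have hcl : ∀ r ∈ Finset.range 10, ((((D.filter fun i => 5 ≤ i).filter fun i => i % 10 = r).card : ℕ) : ℝ) * (2 * δ0) ≤ volume.real S := by
    intro r _
    refine VIS_class S hSfin δ0 hδ1 _ (fun i => (i : ℝ) + s i) ?_ ?_ ?_
    · intro i hi
      simp only [Finset.mem_filter] at hi
      have h := (hs i hi.1.1).1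
      show |(i : ℝ) + s i - i| ≤ 4
      rw [add_sub_cancel_left]
      exact h
    · intro i hi
      simp only [Finset.mem_filter] at hi
      exact hsub i hi.1.1 hi.1.2
    · intro i hi j hj hij
      simp only [Finset.mem_filter] at hi hj
      have h1 : i + 10 ≤ j ∨ j + 10 ≤ i := by omega
      rcases h1 with h1 | h1
      · have h2 : (i : ℝ) + 10 ≤ j := by exact_mod_cast h1
        rw [abs_sub_comm]
        exact le_trans (by linarith) (le_abs_self _)
      · have h2 : (j : ℝ) + 10 ≤ i := by exact_mod_cast h1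
        exact le_trans (by linarith) (le_abs_self _)
  have hsum : ((D.filter fun i => 5 ≤ i).card : ℝ) * (2 * δ0) ≤ 10 * volume.real S := by
    have h1 : (D.filter fun i => 5 ≤ i).card = ∑ r ∈ Finset.range 10, ((D.filter fun i => 5 ≤ i).filter fun i => i % 10 = r).card :=
      Finset.card_eq_sum_card_fiberwise (fun i _ => Finset.mem_coe.2 (Finset.mem_range.2 (Nat.mod_lt _ (by norm_num))))
    rw [h1, Nat.cast_sum, Finset.sum_mul]
    refine le_trans (Finset.sum_le_sum hcl) ?_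
    rw [Finset.sum_const, Finset.card_range, nsmul_eq_mul]
    norm_num
  have hcard : D.card ≤ 5 + (D.filter fun i => 5 ≤ i).card := by
    have h1 : D ⊆ Finset.range 5 ∪ D.filter fun i => 5 ≤ i := by
      intro i hi
      rw [Finset.mem_union, Finset.mem_range, Finset.mem_filter]
      by_cases h : i < 5
      · exact Or.inl h
      · exact Or.inr ⟨hi, not_lt.1 h⟩
    refine le_trans (Finset.card_le_card h1) (le_trans (Finset.card_union_le _ _) ?_)
    rw [Finset.card_range]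
  have hcard' : (D.card : ℝ) ≤ 5 + ((D.filter fun i => 5 ≤ i).card : ℝ) := by exact_mod_cast hcard
  have h3 : ((D.filter fun i => 5 ≤ i).card : ℝ) ≤ 5 / δ0 * volume.real S := by
    have h4 : 5 / δ0 * volume.real S = (10 * volume.real S) / (2 * δ0) := by
      field_simp
      ring
    rw [h4, le_div_iff₀ (by linarith)]
    exact hsum
  linarith

end Pool.Agent.FS
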