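import Pool.Agent.helper81.FS.SpecU

/-! Row fs:U4: maximum principle for the product of four values. -/

set_option autoImplicit false

namespace Pool.Agent.helper81.FS

open MeasureTheory Set Complex Filter Topology

theorem U4_proof : U4_stmt := by
  intro C A c' L r y hA hc hr hd hb z0 hz0 he hL
  have hLp : 0 < L := by linarith
  -- the bound on the closed line
  have hb' : ∀ z : ℂ, |z.re - y| < 3 * r → |z.im| ≤ L → ‖C z‖ ≤ A * Real.exp (-(c' * |z.im|)) := by
    intro z hz hzL
    by_cases h0 : z.im = 0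
    · rw [h0, abs_zero, mul_zero, neg_zero, Real.exp_zero, mul_one]
      have hcont : ContinuousAt C z := (hd z (Or.inr hz)).continuousAt
      have hg : Tendsto (fun ε : ℝ => z + (ε : ℂ) * I) (𝓝[>] 0) (𝓝 z) := by
        have h1 : Tendsto (fun ε : ℝ => z + (ε : ℂ) * I) (𝓝 0) (𝓝 (z + ((0 : ℝ) : ℂ) * I)) :=
          (continuous_const.add (continuous_ofReal.mul continuous_const)).tendsto 0
        rw [ofReal_zero, zero_mul, add_zero] at h1
        exact h1.mono_left nhdsWithin_le_nhds
      have h2 : Tendsto (fun ε : ℝ => ‖C (z + (ε : ℂ) * I)‖) (𝓝[>] 0) (𝓝 ‖C z‖) :=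
        (hcont.tendsto.comp hg).norm
      refine le_of_tendsto h2 ?_
      filter_upwards [Ioc_mem_nhdsGT hLp] with ε hε
      have him : (z + (ε : ℂ) * I).im = ε := by simp [h0]
      have h3 := hb (z + (ε : ℂ) * I) (by rw [him]; exact hε.1.ne') (by rw [him, abs_of_pos hε.1]; exact hε.2)
      refine h3.trans ?_
      have h4 : Real.exp (-(c' * |(z + (ε : ℂ) * I).im|)) ≤ 1 := by
        rw [Real.exp_le_one_iff]
        have : 0 ≤ c' * |(z + (ε : ℂ) * I).im| := mul_nonneg hc.le (abs_nonneg _)
        linarith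
      exact mul_le_of_le_one_right hA h4
    · exact hb z h0 hzL
  have hre : ∀ w : ℂ, ‖w‖ ≤ r → |(z0 + w).re - y| < 3 * r := by
    intro w hw
    have h1 : |w.re| ≤ r := (abs_re_le_norm w).trans hw
    rw [add_re]
    have h2 : z0.re + w.re - y = (z0.re - y) + w.re := by ring
    rw [h2]
    have := abs_add_le (z0.re - y) w.re
    linarith
  have him : ∀ w : ℂ, ‖w‖ ≤ r → |(z0 + w).im| ≤ L := by
    intro w hw
    have h1 : |w.im| ≤ r := (abs_im_le_norm w).trans hw
    rw [add_im]
    have := abs_add_le z0.im w.im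
    rw [abs_of_nonneg he] at this
    linarith
  have hbd : ∀ w : ℂ, ‖w‖ ≤ r → ‖C (z0 + w)‖ ≤ A * Real.exp (-(c' * |(z0 + w).im|)) := fun w hw =>
    hb' _ (hre w hw) (him w hw)
  have hn1 : ∀ w : ℂ, ‖I * w‖ = ‖w‖ := fun w => by rw [norm_mul, norm_I, one_mul]
  obtain ⟨h, hh⟩ : ∃ h : ℂ → ℂ, h = fun w => C (z0 + w) * C (z0 + I * w) * (C (z0 + -w) * C (z0 + -(I * w))) := ⟨_, rfl⟩
  have hdc : DiffContOnCl ℂ h (Metric.ball 0 r) := by
    apply DifferentiableOn.diffContOnCl
    rw [closure_ball (0 : ℂ) hr.ne']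
    intro w hw
    rw [mem_closedBall_zero_iff] at hw
    apply DifferentiableAt.differentiableWithinAt
    rw [hh]
    have e1 : DifferentiableAt ℂ (fun w => C (z0 + w)) w :=
      (hd _ (Or.inr (hre w hw))).comp w ((differentiableAt_const _).add differentiableAt_id)
    have e2 : DifferentiableAt ℂ (fun w => C (z0 + I * w)) w :=
      DifferentiableAt.comp (g := C) (f := fun w => z0 + I * w) w (hd _ (Or.inr (hre (I * w) (by rw [hn1]; exact hw))))
        ((differentiableAt_const _).add (differentiableAt_id.const_mul I))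
    have e3 : DifferentiableAt ℂ (fun w => C (z0 + -w)) w :=
      DifferentiableAt.comp (g := C) (f := fun w => z0 + -w) w (hd _ (Or.inr (hre (-w) (by rw [norm_neg]; exact hw))))
        ((differentiableAt_const _).add differentiableAt_id.neg)
    have e4 : DifferentiableAt ℂ (fun w => C (z0 + -(I * w))) w :=
      DifferentiableAt.comp (g := C) (f := fun w => z0 + -(I * w)) w
        (hd _ (Or.inr (hre (-(I * w)) (by rw [norm_neg, hn1]; exact hw))))
        ((differentiableAt_const _).add (differentiableAt_id.const_mul I).neg)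
    exact (e1.mul e2).mul (e3.mul e4)
  have hfr : ∀ w ∈ frontier (Metric.ball (0 : ℂ) r), ‖h w‖ ≤ A ^ 4 * Real.exp (-(2 * (c' * r))) := by
    intro w hw
    rw [frontier_ball (0 : ℂ) hr.ne', mem_sphere_zero_iff_norm] at hw
    have b1 := hbd w hw.le
    have b2 := hbd (I * w) (by rw [hn1]; exact hw.le)
    have b3 := hbd (-w) (by rw [norm_neg]; exact hw.le)
    have b4 := hbd (-(I * w)) (by rw [norm_neg, hn1]; exact hw.le)
    have i1 : (z0 + w).im = z0.im + w.im := by simp
    have i2 : (z0 + I * w).im = z0.im + w.re := by simp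
    have i3 : (z0 + -w).im = z0.im - w.im := by simp [sub_eq_add_neg]
    have i4 : (z0 + -(I * w)).im = z0.im - w.re := by simp [sub_eq_add_neg]
    rw [i1] at b1
    rw [i2] at b2
    rw [i3] at b3
    rw [i4] at b4
    have hsum : 2 * r ≤ |z0.im + w.im| + |z0.im + w.re| + (|z0.im - w.im| + |z0.im - w.re|) := by
      have s1 : 2 * |w.im| ≤ |z0.im + w.im| + |z0.im - w.im| := by
        have := abs_sub (z0.im + w.im) (z0.im - w.im)
        have e : z0.im + w.im - (z0.im - w.im) = 2 * w.im := by ring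
        rw [e, abs_mul, abs_two] at this
        exact this
      have s2 : 2 * |w.re| ≤ |z0.im + w.re| + |z0.im - w.re| := by
        have := abs_sub (z0.im + w.re) (z0.im - w.re)
        have e : z0.im + w.re - (z0.im - w.re) = 2 * w.re := by ring
        rw [e, abs_mul, abs_two] at this
        exact this
      have s3 : r ≤ |w.re| + |w.im| := by
        rw [← hw]
        exact norm_le_abs_re_add_abs_im w
      linarith
    have p1 : 0 ≤ A * Real.exp (-(c' * |z0.im + w.im|)) := mul_nonneg hA (Real.exp_pos _).le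
    have p3 : 0 ≤ A * Real.exp (-(c' * |z0.im - w.im|)) := mul_nonneg hA (Real.exp_pos _).le
    have q1 := mul_le_mul b1 b2 (norm_nonneg _) p1
    have q2 := mul_le_mul b3 b4 (norm_nonneg _) p3
    have q3 := mul_le_mul q1 q2 (mul_nonneg (norm_nonneg _) (norm_nonneg _))
      (mul_nonneg p1 (mul_nonneg hA (Real.exp_pos _).le))
    rw [hh]
    simp only [norm_mul] at q3 ⊢
    refine q3.trans ?_
    have e5 : A * Real.exp (-(c' * |z0.im + w.im|)) * (A * Real.exp (-(c' * |z0.im + w.re|))) *
        (A * Real.exp (-(c' * |z0.im - w.im|)) * (A * Real.exp (-(c' * |z0.im - w.re|)))) =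
        A ^ 4 * Real.exp (-(c' * (|z0.im + w.im| + |z0.im + w.re| + (|z0.im - w.im| + |z0.im - w.re|)))) := by
      have : Real.exp (-(c' * (|z0.im + w.im| + |z0.im + w.re| + (|z0.im - w.im| + |z0.im - w.re|)))) =
          Real.exp (-(c' * |z0.im + w.im|)) * Real.exp (-(c' * |z0.im + w.re|)) *
            (Real.exp (-(c' * |z0.im - w.im|)) * Real.exp (-(c' * |z0.im - w.re|))) := by
        rw [← Real.exp_add, ← Real.exp_add, ← Real.exp_add]
        congr 1
        ring
      rw [this]
      ring
    rw [e5]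
    refine mul_le_mul_of_nonneg_left (Real.exp_le_exp.mpr ?_) (pow_nonneg hA 4)
    nlinarith
  have h0 := norm_le_of_forall_mem_frontier_norm_le Metric.isBounded_ball hdc hfr
    (subset_closure (Metric.mem_ball_self hr))
  have e0 : h 0 = C z0 ^ 4 := by
    rw [hh]
    simp only [mul_zero, neg_zero, add_zero]
    ring
  rw [e0, norm_pow] at h0
  have e6 : A ^ 4 * Real.exp (-(2 * (c' * r))) = (A * Real.exp (-(c' * r / 2))) ^ 4 := by
    rw [mul_pow, ← Real.exp_nat_mul]
    congr 2
    push_cast
    ring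
  rw [e6] at h0
  exact (pow_le_pow_iff_left₀ (norm_nonneg _) (mul_nonneg hA (Real.exp_pos _).le) (by norm_num)).mp h0

end Pool.Agent.helper81.FS
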